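import Mathlib
import Pool.Agent.H524R3.ExpDefs
import Pool.Agent.W719.AEC.Defs

/-!
# Doubled plumbing graphs and their packing problem
-/

set_option autoImplicit false

open Finset

namespace Pool.Agent.Y397.PG

open W719AEC

variable {n m : ℕ}

/-- The edges of the plumbing graph come in pairs of edges of opposite sign with the same ends: some
permutation of the edges keeps the two ends of every edge and changes its sign. -/
def Doubled (Γ : PlumbingGraph n m) : Prop :=
  ∃ σ : Equiv.Perm (Fin m), ∀ e : Fin m, Γ.src (σ e) = Γ.src e ∧ Γ.tgt (σ e) = Γ.tgt e ∧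
    Γ.positive (σ e) = !(Γ.positive e)

/-- The set of the positive edges. -/
def pos (Γ : PlumbingGraph n m) : Finset (Fin m) := univ.filter fun e => Γ.positive e = true

/-- A fractional vertex packing: numbers α v in [0, 1] whose sum over the two ends of an edge is at
most 1. -/
def IsPacking (Γ : PlumbingGraph n m) (α : Fin n → ℝ) : Prop :=
  (∀ v, 0 ≤ α v ∧ α v ≤ 1) ∧ ∀ e, α (Γ.src e) + α (Γ.tgt e) ≤ 1

/-- The weight ∑_v (1 - N (g_v - 1)) α_v of a function α on the vertices, g_v the genus of v. -/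
noncomputable def weight (N : ℕ) (Γ : PlumbingGraph n m) (α : Fin n → ℝ) : ℝ :=
  ∑ v, (1 - (N : ℝ) * ((Γ.genus v : ℝ) - 1)) * α v

/-- The excess ∑_e max (0, α_(src e) + α_(tgt e) - 1) of α, the sum over the positive edges. -/
noncomputable def excess (Γ : PlumbingGraph n m) (α : Fin n → ℝ) : ℝ :=
  ∑ e ∈ pos Γ, max 0 (α (Γ.src e) + α (Γ.tgt e) - 1)

/-- A packing α which is optimal for SU(N): the function weight - N * excess on the cube [0, 1]^n takes
its maximum at α (the excess of a packing is 0). -/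
def IsOptimal (N : ℕ) (Γ : PlumbingGraph n m) (α : Fin n → ℝ) : Prop :=
  IsPacking Γ α ∧ ∀ β : Fin n → ℝ, (∀ v, 0 ≤ β v ∧ β v ≤ 1) →
    weight N Γ β - N * excess Γ β ≤ weight N Γ α

/-- A maximum packing of the vertices of genus 1: a packing α which vanishes at all vertices whose genus
is not 1, and whose sum is maximal among all such packings. -/
def IsMaxPacking (Γ : PlumbingGraph n m) (α : Fin n → ℝ) : Prop :=
  IsPacking Γ α ∧ (∀ v, Γ.genus v ≠ 1 → α v = 0) ∧
    ∀ β : Fin n → ℝ, IsPacking Γ β → (∀ v, Γ.genus v ≠ 1 → β v = 0) → ∑ v, β v ≤ ∑ v, α v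

/-- The growth exponent (N - 1) ((N + 1) (P + ∑_v (g_v - 1)) + a), P the number of the positive edges. -/
noncomputable def growth (N : ℕ) (Γ : PlumbingGraph n m) (a : ℝ) : ℝ :=
  ((N : ℝ) - 1) * (((N : ℝ) + 1) * (((pos Γ).card : ℝ) + ∑ v, ((Γ.genus v : ℝ) - 1)) + a)

end Pool.Agent.Y397.PG
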