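import Mathlib
import Pool.Agent.W719.AEC.Est
import Pool.Agent.Y397.PG.Defs

/-!
# The state sum of a doubled plumbing graph is a sum of nonnegative terms
-/

set_option autoImplicit false

open Finset

namespace Pool.Agent.Y397.PG

open W719AEC

variable {n m : ℕ}

/-- The term of a colouring x. -/
noncomputable def term (N r : ℕ) (Γ : PlumbingGraph n m) (x : Fin n → Fin N → ℕ) : ℝ :=
  Real.exp (∑ v, (2 - 2 * (Γ.genus v : ℝ)) * (Real.log (kap N r) + Real.log (V r (x v)))) *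
    ∏ e ∈ pos Γ, (Real.exp (-(2 * Real.log (kap N r))) * F r (x (Γ.src e)) (x (Γ.tgt e)) ^ 2)

theorem term_nonneg (N r : ℕ) (Γ : PlumbingGraph n m) (x : Fin n → Fin N → ℕ) : 0 ≤ term N r Γ x := by
  unfold term
  refine mul_nonneg (Real.exp_pos _).le (Finset.prod_nonneg fun e _ => ?_)
  exact mul_nonneg (Real.exp_pos _).le (sq_nonneg _)

theorem prod_split {M : Type*} [CommMonoid M] (Γ : PlumbingGraph n m) (σ : Equiv.Perm (Fin m))
    (hσ : ∀ e, Γ.positive (σ e) = !(Γ.positive e)) (f g : Fin m → M) :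
    ∏ e, (if Γ.positive e = true then f e else g e) = ∏ e ∈ pos Γ, (f e * g (σ e)) := by
  rw [Finset.prod_ite, Finset.prod_mul_distrib]
  congr 1
  symm
  refine Finset.prod_equiv σ (fun e => ?_) (fun e _ => rfl)
  unfold pos
  simp only [mem_filter, mem_univ, true_and]
  rw [hσ e]
  cases Γ.positive e <;> simp

theorem prod_ends {M : Type*} [CommMonoid M] (Γ : PlumbingGraph n m) (y : Fin n → M) :
    ∏ v, y v ^ Γ.degree v = ∏ e, (y (Γ.src e) * y (Γ.tgt e)) := by
  unfold PlumbingGraph.degree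
  simp only [pow_add, Finset.prod_mul_distrib]
  congr 1
  · rw [← Finset.prod_fiberwise univ Γ.src (fun e => y (Γ.src e))]
    refine Finset.prod_congr rfl fun v _ => ?_
    rw [← Finset.prod_const]
    refine Finset.prod_congr rfl fun e he => ?_
    rw [(Finset.mem_filter.mp he).2]
  · rw [← Finset.prod_fiberwise univ Γ.tgt (fun e => y (Γ.tgt e))]
    refine Finset.prod_congr rfl fun v _ => ?_
    rw [← Finset.prod_const]
    refine Finset.prod_congr rfl fun e he => ?_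
    rw [(Finset.mem_filter.mp he).2]

theorem Z_eq_sum (N r : ℕ) (hN : 0 < N) (hr : 0 < r) (Γ : PlumbingGraph n m)
    (h0 : ∀ v, Γ.euler v = 0) (hd : Doubled Γ) :
    Γ.Z N r = ((∑ x ∈ Fintype.piFinset (fun _ : Fin n => labels N r), term N r Γ x : ℝ) : ℂ) := by
  obtain ⟨σ, hσ⟩ := hd
  unfold PlumbingGraph.Z
  rw [Complex.ofReal_sum]
  refine Finset.sum_congr rfl fun x hx => ?_
  rw [Fintype.mem_piFinset] at hx
  have hk := kap_pos N r hN hr
  have hV : ∀ v, 0 < V r (x v) := fun v => V_pos (hx v)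
  set y : Fin n → ℝ := fun v => kap N r * V r (x v) with hy
  have hy0 : ∀ v, 0 < y v := fun v => mul_pos hk (hV v)
  -- the vertex factors
  have h1 : ∀ v, twist N r (x v) ^ Γ.euler v *
      Smat N r (triv N) (x v) ^ (2 - 2 * (Γ.genus v : ℤ) - (Γ.degree v : ℤ)) =
      ((y v ^ (2 - 2 * (Γ.genus v : ℤ)) * (y v ^ Γ.degree v)⁻¹ : ℝ) : ℂ) := by
    intro v
    rw [h0 v, zpow_zero, one_mul, Smat_triv_eq hN (hx v)]
    have h2 : y v ^ (2 - 2 * (Γ.genus v : ℤ) - (Γ.degree v : ℤ)) =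
        y v ^ (2 - 2 * (Γ.genus v : ℤ)) * (y v ^ Γ.degree v)⁻¹ := by
      rw [zpow_sub₀ (hy0 v).ne', zpow_natCast, div_eq_mul_inv]
    rw [← h2, Complex.ofReal_zpow]
  have h3 : ∏ e, (if Γ.positive e = true then Smat N r (x (Γ.src e)) (x (Γ.tgt e))
      else (starRingEnd ℂ) (Smat N r (x (Γ.src e)) (x (Γ.tgt e)))) =
      ((∏ e ∈ pos Γ, (kap N r * ‖alt (x (Γ.tgt e)) (fun i => w r ^ x (Γ.src e) i)‖) ^ 2 : ℝ) : ℂ) := by
    rw [prod_split Γ σ (fun e => (hσ e).2.2) (fun e => Smat N r (x (Γ.src e)) (x (Γ.tgt e)))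
      (fun e => (starRingEnd ℂ) (Smat N r (x (Γ.src e)) (x (Γ.tgt e)))), Complex.ofReal_prod]
    refine Finset.prod_congr rfl fun e _ => ?_
    rw [(hσ e).1, (hσ e).2.1, Complex.mul_conj, Complex.normSq_eq_norm_sq, Smat_norm]
  rw [Finset.prod_congr rfl fun v _ => h1 v, h3, ← Complex.ofReal_prod, ← Complex.ofReal_mul]
  congr 1
  rw [Finset.prod_mul_distrib, Finset.prod_inv_distrib, prod_ends]
  have h4 : ∏ e, (y (Γ.src e) * y (Γ.tgt e)) = ∏ e ∈ pos Γ, (y (Γ.src e) * y (Γ.tgt e)) ^ 2 := by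
    have h5 := prod_split Γ σ (fun e => (hσ e).2.2) (fun e => y (Γ.src e) * y (Γ.tgt e))
      (fun e => y (Γ.src e) * y (Γ.tgt e))
    simp only [ite_self] at h5
    rw [h5]
    refine Finset.prod_congr rfl fun e _ => ?_
    rw [(hσ e).1, (hσ e).2.1, sq]
  rw [h4, mul_assoc, ← Finset.prod_inv_distrib, ← Finset.prod_mul_distrib]
  unfold term
  congr 1
  · rw [Real.exp_sum]
    refine Finset.prod_congr rfl fun v _ => ?_
    rw [← Real.log_mul hk.ne' (hV v).ne']
    have h6 : (2 - 2 * (Γ.genus v : ℝ)) = ((2 - 2 * (Γ.genus v : ℤ) : ℤ) : ℝ) := by push_cast; rfl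
    rw [h6, ← Real.rpow_intCast, mul_comm (((2 - 2 * (Γ.genus v : ℤ) : ℤ) : ℝ)), Real.exp_mul,
      Real.exp_log (mul_pos hk (hV v))]
  · refine Finset.prod_congr rfl fun e _ => ?_
    have h7 : Real.exp (-(2 * Real.log (kap N r))) = (kap N r ^ 2)⁻¹ := by
      have h8 : 2 * Real.log (kap N r) = Real.log (kap N r ^ 2) := by
        rw [Real.log_pow]
        norm_num
      rw [Real.exp_neg, h8, Real.exp_log (by positivity)]
    rw [h7]
    unfold F
    have := (hV (Γ.src e)).ne'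
    have := (hV (Γ.tgt e)).ne'
    have := hk.ne'
    simp only [hy]
    field_simp

end Pool.Agent.Y397.PG
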