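import Mathlib
import Pool.Agent.W719.AEC.Upper
import Pool.Agent.W719.AEC.Lower

/-!
# Bounds for V and for the sum over one vertex
-/

set_option autoImplicit false

open Finset

namespace Pool.Agent.Y397.PG

open W719AEC

theorem two_D (N : ℕ) (hN : 1 ≤ N) : (((N * (N - 1) / 2 : ℕ) : ℝ)) * 2 = N * ((N : ℝ) - 1) := by
  have h2 : 2 ∣ N * (N - 1) := (Nat.even_mul_pred_self N).two_dvd
  have h3 : N * (N - 1) / 2 * 2 = N * (N - 1) := Nat.div_mul_cancel h2
  have h4 : (((N * (N - 1) / 2 * 2 : ℕ) : ℝ)) = ((N * (N - 1) : ℕ) : ℝ) := by rw [h3]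
  rw [Nat.cast_mul, Nat.cast_mul, Nat.cast_sub hN] at h4
  simpa using h4

theorem V_le_two (N r : ℕ) (a : Fin N → ℕ) : V r a ≤ (2 : ℝ) ^ (N * (N - 1) / 2) := by
  rw [V_eq, ← prod_pairs_const N (2 : ℝ)]
  refine Finset.prod_le_prod (fun i _ => Finset.prod_nonneg fun j _ => norm_nonneg _) fun i _ =>
    Finset.prod_le_prod (fun j _ => norm_nonneg _) fun j _ => ?_
  refine (norm_sub_le _ _).trans ?_
  rw [w_norm, w_norm]
  norm_num

theorem sin_ge_of {r d : ℕ} (h1 : 1 ≤ d) (h2 : d + 1 ≤ r) : 2 / (r : ℝ) ≤ Real.sin (Real.pi * d / r) := by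
  have hr0 : (0 : ℝ) < r := by
    have : 0 < r := by omega
    exact_mod_cast this
  have hd1 : (1 : ℝ) ≤ d := by exact_mod_cast h1
  have hd2 : (d : ℝ) + 1 ≤ r := by exact_mod_cast h2
  have hpi := Real.pi_pos
  by_cases h : (d : ℝ) ≤ r / 2
  · have h2 := Real.mul_le_sin (x := Real.pi * d / r) (by positivity) (by
      rw [div_le_iff₀ hr0]; nlinarith)
    have h3 : 2 / Real.pi * (Real.pi * d / r) = 2 * d / r := by field_simp
    rw [h3] at h2
    refine le_trans ?_ h2
    apply div_le_div_of_nonneg_right _ hr0.le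
    linarith
  · push Not at h
    have hd : (0 : ℝ) ≤ r - d := by linarith
    have h2 := Real.mul_le_sin (x := Real.pi * (r - d) / r) (by positivity) (by
      rw [div_le_iff₀ hr0]; nlinarith)
    have h3 : 2 / Real.pi * (Real.pi * (r - d) / r) = 2 * (r - d) / r := by field_simp
    have h3' : Real.pi * ((r : ℝ) - d) / r = Real.pi - Real.pi * d / r := by field_simp
    rw [h3, h3', Real.sin_pi_sub] at h2
    refine le_trans ?_ h2
    apply div_le_div_of_nonneg_right _ hr0.le
    linarith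

theorem V_ge_min {N r : ℕ} {a : Fin N → ℕ} (ha : a ∈ labels N r) :
    (4 / r : ℝ) ^ (N * (N - 1) / 2) ≤ V r a := by
  rw [V_eq_sin ha, ← prod_pairs_const N (4 / r : ℝ)]
  rw [mem_labels] at ha
  refine Finset.prod_le_prod (fun i _ => Finset.prod_nonneg fun j _ => by positivity) fun i _ =>
    Finset.prod_le_prod (fun j _ => by positivity) fun j hj => ?_
  have h1 := ha.2.1 i j (mem_Ioi.mp hj)
  have h2 := ha.1 j
  have h3 := sin_ge_of (r := r) (d := a j - a i) (by omega) (by omega)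
  rw [Nat.cast_sub h1.le] at h3
  calc (4 / r : ℝ) = 2 * (2 / r) := by ring
    _ ≤ _ := by linarith

/-- The sum over one vertex. -/
theorem vsum_le (N : ℕ) (hN : 2 ≤ N) (s : ℝ) : ∃ C : ℝ, 0 < C ∧ ∀ r : ℕ, 1 ≤ r →
    ∑ a ∈ labels N r, Real.exp (-(s * Real.log (V r a))) ≤
      C * (Real.exp (Real.log r * (((N : ℝ) - 1) * max (s * N / 2) 1)) * (1 + Real.log r) ^ (N - 1)) := by
  have hN0 : 0 < N := by omega
  have hN' : (2 : ℝ) ≤ N := by exact_mod_cast hN
  set D : ℕ := N * (N - 1) / 2 with hD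
  have hD2 := two_D N (by omega)
  rw [← hD] at hD2
  set p : ℝ := 2 / (N : ℝ) with hp
  have hpN : p * N = 2 := by rw [hp]; field_simp
  refine ⟨Real.exp (|p - s| * (D * Real.log 2)), Real.exp_pos _, fun r hr => ?_⟩
  have hr' : (1 : ℝ) ≤ r := by exact_mod_cast hr
  have hr0 : (0 : ℝ) < r := by linarith
  have hL : 0 ≤ Real.log r := Real.log_nonneg hr'
  set L := Real.log r with hLdef
  have hl2 : 0 < Real.log 2 := Real.log_pos (by norm_num)
  have hterm : ∀ a ∈ labels N r, Real.exp (-(s * Real.log (V r a))) ≤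
      Real.exp (|p - s| * (D * Real.log 2) + max (s - p) 0 * (D * L)) * (V r a) ^ (-p) := by
    intro a ha
    have hV := V_pos ha
    have h1 : Real.log (V r a) ≤ D * Real.log 2 := by
      have := Real.log_le_log hV (V_le_two N r a)
      rwa [← hD, Real.log_pow] at this
    have h2 : -(D * L) ≤ Real.log (V r a) := by
      have h3 := Real.log_le_log (by positivity) (V_ge_min ha)
      rw [← hD, Real.log_pow, Real.log_div (by norm_num) hr0.ne'] at h3
      have h4 : 0 ≤ Real.log 4 := Real.log_nonneg (by norm_num)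
      have h5 : (0 : ℝ) ≤ D := Nat.cast_nonneg _
      nlinarith [mul_nonneg h5 h4]
    rw [Real.rpow_def_of_pos hV, ← Real.exp_add]
    apply Real.exp_le_exp.mpr
    set ℓ := Real.log (V r a) with hℓ
    have hDL : 0 ≤ D * L := by positivity
    have hD2' : 0 ≤ D * Real.log 2 := by positivity
    rcases le_total s p with h | h
    · rw [abs_of_nonneg (by linarith), max_eq_right (by linarith)]
      nlinarith [mul_le_mul_of_nonneg_left h1 (by linarith : (0 : ℝ) ≤ p - s)]
    · rw [abs_of_nonpos (by linarith), max_eq_left (by linarith)]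
      nlinarith [mul_le_mul_of_nonneg_left h2 (by linarith : (0 : ℝ) ≤ s - p),
        mul_nonneg (by linarith : (0 : ℝ) ≤ s - p) hD2']
  have hsum := sum_V_rpow_le hN0 hr (N := N) (r := r)
  have hhs := hs_le r hr
  have hhs0 := hs_nonneg r
  have h1 : hs r ^ (N - 1) ≤ Real.exp (L * ((N : ℝ) - 1)) * (1 + L) ^ (N - 1) := by
    have h2 : hs r ≤ r * (1 + L) := by
      refine hhs.trans ?_
      apply mul_le_mul_of_nonneg_right _ (by linarith)
      linarith
    refine (pow_le_pow_left₀ hhs0 h2 (N - 1)).trans (le_of_eq ?_)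
    rw [mul_pow]
    congr 1
    rw [mul_comm L, Real.exp_mul, ← Real.rpow_natCast, Nat.cast_sub (by omega), Nat.cast_one,
      ← Real.exp_log hr0, ← hLdef]
    rw [← Real.exp_mul, ← Real.exp_mul]
    congr 1
    ring
  have h3 : max (s - p) 0 * (D * L) + L * ((N : ℝ) - 1) = L * (((N : ℝ) - 1) * max (s * N / 2) 1) := by
    have hDe : (D : ℝ) = N * ((N : ℝ) - 1) / 2 := by linarith
    rw [hDe]
    rcases le_total s p with h | h
    · rw [max_eq_right (by linarith), max_eq_right (by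
        have : s * N ≤ p * N := mul_le_mul_of_nonneg_right h (by linarith)
        linarith)]
      ring
    · rw [max_eq_left (by linarith), max_eq_left (by
        have : p * N ≤ s * N := mul_le_mul_of_nonneg_right h (by linarith)
        linarith)]
      have h4 : p * N / 2 = 1 := by linarith
      calc (s - p) * (N * ((N : ℝ) - 1) / 2 * L) + L * ((N : ℝ) - 1)
          = L * ((N : ℝ) - 1) * (s * N / 2) + L * ((N : ℝ) - 1) * (1 - p * N / 2) := by ring
        _ = _ := by rw [h4]; ring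
  calc ∑ a ∈ labels N r, Real.exp (-(s * Real.log (V r a)))
      ≤ ∑ a ∈ labels N r, Real.exp (|p - s| * (D * Real.log 2) + max (s - p) 0 * (D * L)) * (V r a) ^ (-p) :=
        Finset.sum_le_sum hterm
    _ = Real.exp (|p - s| * (D * Real.log 2) + max (s - p) 0 * (D * L)) * ∑ a ∈ labels N r, (V r a) ^ (-p) := by
        rw [Finset.mul_sum]
    _ ≤ Real.exp (|p - s| * (D * Real.log 2) + max (s - p) 0 * (D * L)) *
          (Real.exp (L * ((N : ℝ) - 1)) * (1 + L) ^ (N - 1)) :=
        mul_le_mul_of_nonneg_left (hsum.trans h1) (Real.exp_pos _).le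
    _ = _ := by
        rw [← h3, Real.exp_add, Real.exp_add]
        ring

/-- A block of labels with gaps. -/
def blk (N q : ℕ) : Finset (Fin N → ℕ) :=
  Fintype.piFinset fun i : Fin N => if (i : ℕ) = 0 then {0} else Ioc (2 * (i : ℕ) * q) ((2 * i + 1) * q)

theorem mem_blk {N q : ℕ} {a : Fin N → ℕ} (h : a ∈ blk N q) :
    (∀ i : Fin N, (i : ℕ) = 0 → a i = 0) ∧
      ∀ i : Fin N, (i : ℕ) ≠ 0 → 2 * (i : ℕ) * q < a i ∧ a i ≤ (2 * i + 1) * q := by
  unfold blk at h
  rw [Fintype.mem_piFinset] at h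
  constructor
  · intro i hi
    have := h i
    rw [if_pos hi, mem_singleton] at this
    exact this
  · intro i hi
    have := h i
    rw [if_neg hi, mem_Ioc] at this
    exact this

theorem blk_card (N q : ℕ) (hN : 0 < N) : (blk N q).card = q ^ (N - 1) := by
  unfold blk
  rw [Fintype.card_piFinset]
  obtain ⟨n, rfl⟩ : ∃ n, N = n + 1 := ⟨N - 1, by omega⟩
  rw [Fin.prod_univ_succ]
  have h1 : ∀ i : Fin n, (if ((i.succ : Fin (n + 1)) : ℕ) = 0 then ({0} : Finset ℕ) else
      Ioc (2 * ((i.succ : Fin (n + 1)) : ℕ) * q) ((2 * ((i.succ : Fin (n + 1)) : ℕ) + 1) * q)).card = q := by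
    intro i
    rw [if_neg (by simp), Nat.card_Ioc, ← Nat.sub_mul]
    simp
  rw [Finset.prod_congr rfl fun i _ => h1 i]
  simp

theorem blk_le {N q : ℕ} {a : Fin N → ℕ} (h : a ∈ blk N q) (i : Fin N) : a i ≤ 2 * N * q := by
  obtain ⟨h0, h1⟩ := mem_blk h
  by_cases hi : (i : ℕ) = 0
  · rw [h0 i hi]; exact Nat.zero_le _
  · refine (h1 i hi).2.trans (Nat.mul_le_mul_right q ?_)
    have := i.isLt
    omega

theorem blk_gap {N q : ℕ} {a : Fin N → ℕ} (h : a ∈ blk N q) (i j : Fin N) (hij : i < j) :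
    a i + q ≤ a j ∧ a i < a j := by
  obtain ⟨h0, h1⟩ := mem_blk h
  have hij' : (i : ℕ) + 1 ≤ j := hij
  have hj0 : (j : ℕ) ≠ 0 := by omega
  have hj := (h1 j hj0).1
  have h2 : (2 * (i : ℕ) + 1) * q + q ≤ 2 * (j : ℕ) * q := by
    calc (2 * (i : ℕ) + 1) * q + q = 2 * ((i : ℕ) + 1) * q := by ring
      _ ≤ 2 * (j : ℕ) * q := Nat.mul_le_mul_right q (Nat.mul_le_mul_left 2 hij')
  by_cases hi : (i : ℕ) = 0
  · rw [h0 i hi]
    rw [hi] at h2
    constructor <;> omega
  · have h3 := (h1 i hi).2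
    constructor <;> omega

theorem blk_subset {N q r : ℕ} (hq : 2 * N * q < r) : blk N q ⊆ labels N r := by
  intro a ha
  rw [mem_labels]
  exact ⟨fun i => lt_of_le_of_lt (blk_le ha i) hq, fun i j hij => (blk_gap ha i j hij).2,
    (mem_blk ha).1⟩

theorem V_blk_le {N q r : ℕ} {a : Fin N → ℕ} (h : a ∈ blk N q) :
    V r a ≤ (4 * Real.pi * N * q / r : ℝ) ^ (N * (N - 1) / 2) := by
  have hpi := Real.pi_pos
  rw [V_eq, ← prod_pairs_const N (4 * Real.pi * N * q / r : ℝ)]
  refine Finset.prod_le_prod (fun i _ => Finset.prod_nonneg fun j _ => norm_nonneg _) fun i _ =>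
    Finset.prod_le_prod (fun j _ => norm_nonneg _) fun j hj => ?_
  have h1 := (blk_gap h i j (mem_Ioi.mp hj)).2
  have h2 := blk_le h j
  have h3 : (a i : ℝ) < a j := by exact_mod_cast h1
  have h4 : (a j : ℝ) ≤ 2 * N * q := by exact_mod_cast h2
  have h5 : (0 : ℝ) ≤ a i := Nat.cast_nonneg _
  rw [norm_w_sub]
  have h6 : |Real.sin (Real.pi * ((a j : ℝ) - a i) / r)| ≤ |Real.pi * ((a j : ℝ) - a i) / r| :=
    Real.abs_sin_le_abs
  have h7 : (0 : ℝ) ≤ Real.pi * ((a j : ℝ) - a i) / r := by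
    have : 0 ≤ (a j : ℝ) - a i := by linarith
    positivity
  rw [abs_of_nonneg h7] at h6
  calc 2 * |Real.sin (Real.pi * ((a j : ℝ) - a i) / r)| ≤ 2 * (Real.pi * ((a j : ℝ) - a i) / r) := by
        linarith
    _ ≤ 2 * (Real.pi * (2 * N * q) / r) := by
        have : Real.pi * ((a j : ℝ) - a i) / r ≤ Real.pi * (2 * N * q) / r := by
          apply div_le_div_of_nonneg_right _ (Nat.cast_nonneg r)
          exact mul_le_mul_of_nonneg_left (by linarith) hpi.le
        linarith
    _ = _ := by ring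

theorem V_blk_ge {N q r : ℕ} (hr : 0 < r) (hq : 4 * N * q ≤ r) {a : Fin N → ℕ} (h : a ∈ blk N q) :
    (4 * q / r : ℝ) ^ (N * (N - 1) / 2) ≤ V r a := by
  have hr' : (0 : ℝ) < r := by exact_mod_cast hr
  have hpi := Real.pi_pos
  rw [V_eq, ← prod_pairs_const N (4 * q / r : ℝ)]
  refine Finset.prod_le_prod (fun i _ => Finset.prod_nonneg fun j _ => by positivity) fun i _ =>
    Finset.prod_le_prod (fun j _ => by positivity) fun j hj => ?_
  have h1 := (blk_gap h i j (mem_Ioi.mp hj)).1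
  have h2 := blk_le h j
  have h3 : (a i : ℝ) + q ≤ a j := by exact_mod_cast h1
  have h4 : (a j : ℝ) ≤ 2 * N * q := by exact_mod_cast h2
  have h5 : (0 : ℝ) ≤ a i := Nat.cast_nonneg _
  have h6 : (4 : ℝ) * N * q ≤ r := by exact_mod_cast hq
  have h7 : (0 : ℝ) ≤ q := Nat.cast_nonneg _
  rw [norm_w_sub]
  have h8 := Real.mul_le_sin (x := Real.pi * ((a j : ℝ) - a i) / r) (by
      have : 0 ≤ (a j : ℝ) - a i := by linarith
      positivity) (by
    rw [div_le_iff₀ hr']; nlinarith)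
  have h9 : 2 / Real.pi * (Real.pi * ((a j : ℝ) - a i) / r) = 2 * ((a j : ℝ) - a i) / r := by field_simp
  rw [h9] at h8
  refine le_trans ?_ (mul_le_mul_of_nonneg_left (h8.trans (le_abs_self _)) (by norm_num))
  calc (4 * q / r : ℝ) = 2 * (2 * q / r) := by ring
    _ ≤ _ := by
      apply mul_le_mul_of_nonneg_left _ (by norm_num)
      apply div_le_div_of_nonneg_right _ hr'.le
      linarith

theorem blk_disjoint {N q q' : ℕ} (hN : 2 ≤ N) (h : 2 * q ≤ q') : Disjoint (blk N q) (blk N q') := by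
  rw [Finset.disjoint_left]
  intro a ha ha'
  have h1 := ((mem_blk ha).2 ⟨1, hN⟩ (by simp)).2
  have h2 := ((mem_blk ha').2 ⟨1, hN⟩ (by simp)).1
  simp only at h1 h2
  omega

end Pool.Agent.Y397.PG
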