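import Mathlib
import Pool.Agent.Y397.PG.LP
import Pool.Agent.Y397.PG.Vbd
import Pool.Agent.Y397.PG.Term

/-!
# The upper bound
-/

set_option autoImplicit false

open Finset

namespace Pool.Agent.Y397.PG

open W719AEC

variable {n m : ℕ}

theorem sq_le_exp {x A B θ : ℝ} (hx : 0 ≤ x) (hA : x ≤ Real.exp A) (hB : x ≤ Real.exp B) (h0 : 0 ≤ θ)
    (h1 : θ ≤ 1) : x ^ 2 ≤ Real.exp (2 * ((1 - θ) * A + θ * B)) := by
  have h2 : x ≤ Real.exp ((1 - θ) * A + θ * B) := by
    rcases le_total A B with h | h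
    · refine hA.trans (Real.exp_le_exp.mpr ?_)
      nlinarith
    · refine hB.trans (Real.exp_le_exp.mpr ?_)
      nlinarith
  rw [mul_comm, Real.exp_mul, Real.rpow_two]
  exact pow_le_pow_left₀ hx h2 2

theorem exp_aux (K a b p q : ℝ) :
    Real.exp (K + a) * (p * (Real.exp b * q)) = Real.exp K * p * (Real.exp (a + b) * q) := by
  rw [Real.exp_add K a, Real.exp_add a b]
  ring

theorem log_kap (N r : ℕ) (hN : 0 < N) (hr : 0 < r) :
    -(2 * Real.log (kap N r)) = Real.log N + ((N : ℝ) - 1) * Real.log r := by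
  have hk := kap_pos N r hN hr
  have hr' : (0 : ℝ) < r := by exact_mod_cast hr
  have hN' : (0 : ℝ) < N := by exact_mod_cast hN
  have h8 : 2 * Real.log (kap N r) = Real.log (kap N r ^ 2) := by
    rw [Real.log_pow]; norm_num
  rw [h8, kap_sq, one_div, Real.log_inv, neg_neg, Real.log_mul hN'.ne' (by positivity), Real.log_pow,
    Nat.cast_sub (by omega)]
  norm_num

theorem sum_term_le (N : ℕ) (hN : 2 ≤ N) (Γ : PlumbingGraph n m) (ω : Fin m → ℝ) (t : Fin n → ℝ)
    (hw0 : ∀ e, 0 ≤ ω e) (hwN : ∀ e, ω e ≤ N) (ht : ∀ v, 0 ≤ t v)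
    (hcov : ∀ v, 1 - (N : ℝ) * ((Γ.genus v : ℝ) - 1) ≤ load Γ ω v + t v) :
    ∃ C : ℝ, 0 < C ∧ ∀ r : ℕ, 1 ≤ r →
      ∑ x ∈ Fintype.piFinset (fun _ : Fin n => labels N r), term N r Γ x ≤
        C * (Real.exp (Real.log r * growth N Γ (∑ e ∈ pos Γ, ω e + ∑ v, t v)) *
          (1 + Real.log r) ^ (n * (N - 1))) := by
  classical
  have hN0 : 0 < N := by omega
  have hN' : (2 : ℝ) ≤ N := by exact_mod_cast hN
  have hNp : (0 : ℝ) < N := by linarith
  set D : ℕ := N * (N - 1) / 2 with hD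
  have hD2 := two_D N (by omega)
  rw [← hD] at hD2
  set θ : Fin m → ℝ := fun e => ω e / N with hθ
  have hθ0 : ∀ e, 0 ≤ θ e := fun e => div_nonneg (hw0 e) hNp.le
  have hθ1 : ∀ e, θ e ≤ 1 := fun e => (div_le_one hNp).mpr (hwN e)
  have hloadθ : ∀ v, load Γ θ v = load Γ ω v / N := by
    intro v
    simp only [load, hθ, add_div, Finset.sum_div]
  set s : Fin n → ℝ := fun v => (2 * (Γ.genus v : ℝ) - 2) + 2 * load Γ θ v with hs
  choose Cv hCv0 hCv using fun v => vsum_le N hN (s v)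
  set P : ℝ := ((pos Γ).card : ℝ) with hP
  set G : ℝ := ∑ v, ((Γ.genus v : ℝ) - 1) with hG
  set Θ : ℝ := ∑ e ∈ pos Γ, θ e with hΘ
  set lf : ℝ := Real.log (Nat.factorial N) with hlf
  set K1 : ℝ := Real.log N * (P + G) + 2 * (D * Real.log (N / 4)) * (P - Θ) + 2 * lf * Θ with hK1
  refine ⟨Real.exp K1 * ∏ v, Cv v, mul_pos (Real.exp_pos _) (Finset.prod_pos fun v _ => hCv0 v),
    fun r hr => ?_⟩
  have hr' : (1 : ℝ) ≤ r := by exact_mod_cast hr
  have hr0 : (0 : ℝ) < r := by linarith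
  have hL : 0 ≤ Real.log r := Real.log_nonneg hr'
  set L := Real.log r with hLdef
  set lk := Real.log (kap N r) with hlk
  have hlk2 : -(2 * lk) = Real.log N + ((N : ℝ) - 1) * L := log_kap N r hN0 hr
  set A : ℝ := D * (Real.log (N / 4) + L) with hA
  have hM : ((N * r / 4 : ℝ) ^ D) = Real.exp A := by
    rw [hA, show (N * r / 4 : ℝ) = (N / 4) * r by ring, ← Real.log_mul (by positivity) hr0.ne',
      ← Real.log_pow, Real.exp_log (by positivity)]
  -- the term
  have hterm : ∀ x ∈ Fintype.piFinset (fun _ : Fin n => labels N r), term N r Γ x ≤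
      Real.exp (K1 + L * ((N - 1) * (P + G) + N * (N - 1) * P - N * (N - 1) * Θ)) *
        ∏ v, Real.exp (-(s v * Real.log (V r (x v)))) := by
    intro x hx
    rw [Fintype.mem_piFinset] at hx
    set ℓ : Fin n → ℝ := fun v => Real.log (V r (x v)) with hℓ
    have hedge : ∀ e ∈ pos Γ, Real.exp (-(2 * lk)) * F r (x (Γ.src e)) (x (Γ.tgt e)) ^ 2 ≤
        Real.exp (-(2 * lk) + 2 * ((1 - θ e) * A + θ e * (lf - (ℓ (Γ.src e) + ℓ (Γ.tgt e))))) := by
      intro e _
      rw [Real.exp_add]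
      apply mul_le_mul_of_nonneg_left _ (Real.exp_pos _).le
      refine sq_le_exp (F_nonneg _ _ _) ?_ ?_ (hθ0 e) (hθ1 e)
      · rw [← hM]
        exact F_le hN0 hr (hx _) (hx _)
      · refine (F_le' (hx _) (hx _)).trans (le_of_eq ?_)
        have h1 := V_pos (hx (Γ.src e))
        have h2 := V_pos (hx (Γ.tgt e))
        have h3 : (0 : ℝ) < (Nat.factorial N : ℝ) := by exact_mod_cast Nat.factorial_pos N
        simp only [hlf, hℓ]
        rw [← Real.log_mul h1.ne' h2.ne', ← Real.log_div h3.ne' (by positivity), Real.exp_log (by positivity)]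
    unfold term
    calc Real.exp (∑ v, (2 - 2 * (Γ.genus v : ℝ)) * (lk + ℓ v)) *
          ∏ e ∈ pos Γ, (Real.exp (-(2 * lk)) * F r (x (Γ.src e)) (x (Γ.tgt e)) ^ 2)
        ≤ Real.exp (∑ v, (2 - 2 * (Γ.genus v : ℝ)) * (lk + ℓ v)) *
          ∏ e ∈ pos Γ, Real.exp (-(2 * lk) + 2 * ((1 - θ e) * A + θ e * (lf - (ℓ (Γ.src e) + ℓ (Γ.tgt e))))) := by
          apply mul_le_mul_of_nonneg_left _ (Real.exp_pos _).le
          exact Finset.prod_le_prod (fun e _ => mul_nonneg (Real.exp_pos _).le (sq_nonneg _)) hedge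
      _ = _ := by
          rw [← Real.exp_sum, ← Real.exp_sum, ← Real.exp_add, ← Real.exp_add]
          congr 1
          have e1 : ∑ v, (2 - 2 * (Γ.genus v : ℝ)) * (lk + ℓ v) =
              -(2 * lk) * G - ∑ v, (2 * (Γ.genus v : ℝ) - 2) * ℓ v := by
            rw [hG, Finset.mul_sum, ← Finset.sum_sub_distrib]
            refine Finset.sum_congr rfl fun v _ => ?_
            ring
          have e2 : ∑ e ∈ pos Γ, (-(2 * lk) + 2 * ((1 - θ e) * A + θ e * (lf - (ℓ (Γ.src e) + ℓ (Γ.tgt e))))) =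
              (-(2 * lk) + 2 * A) * P + (2 * lf - 2 * A) * Θ - 2 * ∑ v, load Γ θ v * ℓ v := by
            have e4 : (-(2 * lk) + 2 * A) * P = ∑ _e ∈ pos Γ, (-(2 * lk) + 2 * A) := by
              rw [Finset.sum_const, nsmul_eq_mul, mul_comm]
            rw [e4, ← sum_ends, hΘ, Finset.mul_sum, Finset.mul_sum, ← Finset.sum_add_distrib,
              ← Finset.sum_sub_distrib]
            refine Finset.sum_congr rfl fun e _ => ?_
            ring
          have e3 : ∑ v, -(s v * Real.log (V r (x v))) =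
              - ∑ v, (2 * (Γ.genus v : ℝ) - 2) * ℓ v - 2 * ∑ v, load Γ θ v * ℓ v := by
            rw [Finset.mul_sum, ← Finset.sum_neg_distrib, ← Finset.sum_sub_distrib]
            refine Finset.sum_congr rfl fun v _ => ?_
            simp only [hs, hℓ]
            ring
          rw [e1, e2, e3, hlk2, hA, hK1]
          have hDe : (D : ℝ) = N * ((N : ℝ) - 1) / 2 := by linarith
          rw [hDe]
          ring
  -- the sum
  have hsumprod : ∑ x ∈ Fintype.piFinset (fun _ : Fin n => labels N r),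
      ∏ v, Real.exp (-(s v * Real.log (V r (x v)))) =
      ∏ v, ∑ a ∈ labels N r, Real.exp (-(s v * Real.log (V r a))) :=
    (Finset.prod_univ_sum (fun _ : Fin n => labels N r)
      (fun v a => Real.exp (-(s v * Real.log (V r a))))).symm
  have hprod : ∏ v, ∑ a ∈ labels N r, Real.exp (-(s v * Real.log (V r a))) ≤
      (∏ v, Cv v) * (Real.exp (L * (((N : ℝ) - 1) * ∑ v, ((N : ℝ) * ((Γ.genus v : ℝ) - 1) + load Γ ω v + t v))) *
        (1 + L) ^ (n * (N - 1))) := by
    have h1 : ∀ v, ∑ a ∈ labels N r, Real.exp (-(s v * Real.log (V r a))) ≤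
        Cv v * (Real.exp (L * (((N : ℝ) - 1) * ((N : ℝ) * ((Γ.genus v : ℝ) - 1) + load Γ ω v + t v))) *
          (1 + L) ^ (N - 1)) := by
      intro v
      refine (hCv v r hr).trans ?_
      apply mul_le_mul_of_nonneg_left _ (hCv0 v).le
      apply mul_le_mul_of_nonneg_right _ (by positivity)
      apply Real.exp_le_exp.mpr
      apply mul_le_mul_of_nonneg_left _ hL
      apply mul_le_mul_of_nonneg_left _ (by linarith)
      have h2 : s v * N / 2 = (N : ℝ) * ((Γ.genus v : ℝ) - 1) + load Γ ω v := by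
        simp only [hs]
        rw [hloadθ]
        field_simp
      rw [h2]
      apply max_le
      · linarith [ht v]
      · linarith [hcov v]
    refine (Finset.prod_le_prod (fun v _ => Finset.sum_nonneg fun a _ => (Real.exp_pos _).le)
      (fun v _ => h1 v)).trans (le_of_eq ?_)
    rw [Finset.prod_mul_distrib, Finset.prod_mul_distrib, ← Real.exp_sum, Finset.mul_sum, Finset.mul_sum,
      Finset.prod_const, Finset.card_univ, Fintype.card_fin, ← pow_mul, mul_comm n (N - 1)]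
  have hload2 : ∑ v, load Γ ω v = 2 * ∑ e ∈ pos Γ, ω e := by
    have h1 := sum_ends Γ ω (fun _ => 1)
    simp only [mul_one] at h1
    rw [← h1, Finset.mul_sum]
    refine Finset.sum_congr rfl fun e _ => ?_
    ring
  have hΘω : (N : ℝ) * Θ = ∑ e ∈ pos Γ, ω e := by
    rw [hΘ, Finset.mul_sum]
    refine Finset.sum_congr rfl fun e _ => ?_
    simp only [hθ]
    field_simp
  calc ∑ x ∈ Fintype.piFinset (fun _ : Fin n => labels N r), term N r Γ x
      ≤ ∑ x ∈ Fintype.piFinset (fun _ : Fin n => labels N r),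
        Real.exp (K1 + L * ((N - 1) * (P + G) + N * (N - 1) * P - N * (N - 1) * Θ)) *
        ∏ v, Real.exp (-(s v * Real.log (V r (x v)))) := Finset.sum_le_sum hterm
    _ = Real.exp (K1 + L * ((N - 1) * (P + G) + N * (N - 1) * P - N * (N - 1) * Θ)) *
        ∏ v, ∑ a ∈ labels N r, Real.exp (-(s v * Real.log (V r a))) := by
        rw [← Finset.mul_sum, hsumprod]
    _ ≤ Real.exp (K1 + L * ((N - 1) * (P + G) + N * (N - 1) * P - N * (N - 1) * Θ)) *
        ((∏ v, Cv v) * (Real.exp (L * (((N : ℝ) - 1) * ∑ v, ((N : ℝ) * ((Γ.genus v : ℝ) - 1) + load Γ ω v + t v))) *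
        (1 + L) ^ (n * (N - 1)))) := mul_le_mul_of_nonneg_left hprod (Real.exp_pos _).le
    _ = Real.exp K1 * (∏ v, Cv v) * (Real.exp (L * ((N - 1) * (P + G) + N * (N - 1) * P - N * (N - 1) * Θ) +
          L * (((N : ℝ) - 1) * ∑ v, ((N : ℝ) * ((Γ.genus v : ℝ) - 1) + load Γ ω v + t v))) *
        (1 + L) ^ (n * (N - 1))) := by
        exact exp_aux _ _ _ _ _
    _ = _ := by
        congr 3
        have e1 : ∑ v, ((N : ℝ) * ((Γ.genus v : ℝ) - 1) + load Γ ω v + t v) =
            N * G + 2 * ∑ e ∈ pos Γ, ω e + ∑ v, t v := by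
          rw [Finset.sum_add_distrib, Finset.sum_add_distrib, ← Finset.mul_sum, hload2]
        rw [e1]
        unfold growth
        rw [← hP, ← hG, ← hΘω]
        ring

end Pool.Agent.Y397.PG
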