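import Mathlib
import Pool.Agent.Y397.PG.Up

/-!
# The lower bound
-/

set_option autoImplicit false

open Finset

namespace Pool.Agent.Y397.PG

open W719AEC

variable {n m : ℕ}

/-- the small constant -/
noncomputable def cc (N : ℕ) : ℝ := 1 / (52 * (N : ℝ) ^ 3)

theorem cc_pos (N : ℕ) (hN : 2 ≤ N) : 0 < cc N := by
  have : (0 : ℝ) < N := by
    have : 0 < N := by omega
    exact_mod_cast this
  unfold cc
  positivity

theorem cc_le_one (N : ℕ) (hN : 2 ≤ N) : cc N ≤ 1 := by
  have hN' : (2 : ℝ) ≤ N := by exact_mod_cast hN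
  unfold cc
  rw [div_le_one (by positivity)]
  have h2 : (2 : ℝ) ^ 3 ≤ (N : ℝ) ^ 3 := pow_le_pow_left₀ (by norm_num) hN' 3
  linarith

/-- the size of the block at a vertex with scale b -/
noncomputable def qq (N : ℕ) (L b : ℝ) : ℕ := max 1 ⌊cc N * Real.exp (b * L)⌋₊

theorem qq_one (N : ℕ) (L b : ℝ) : 1 ≤ qq N L b := le_max_left _ _

theorem qq_le_max (N : ℕ) (hN : 2 ≤ N) (L b : ℝ) : (qq N L b : ℝ) ≤ max 1 (cc N * Real.exp (b * L)) := by
  unfold qq
  rw [Nat.cast_max, Nat.cast_one]
  exact max_le_max le_rfl (Nat.floor_le (mul_pos (cc_pos N hN) (Real.exp_pos _)).le)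

theorem qq_le_exp (N : ℕ) (hN : 2 ≤ N) (L b : ℝ) (hL : 0 ≤ L) (hb : 0 ≤ b) :
    (qq N L b : ℝ) ≤ Real.exp (b * L) := by
  refine (qq_le_max N hN L b).trans (max_le ?_ ?_)
  · exact Real.one_le_exp (mul_nonneg hb hL)
  · have := mul_le_mul_of_nonneg_right (cc_le_one N hN) (Real.exp_pos (b * L)).le
    linarith

theorem qq_ge (N : ℕ) (L b : ℝ) : cc N / 2 * Real.exp (b * L) ≤ qq N L b := by
  set x := cc N * Real.exp (b * L) with hx
  have h1 : cc N / 2 * Real.exp (b * L) = x / 2 := by rw [hx]; ring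
  rw [h1]
  by_cases h : x < 1
  · have h2 : (1 : ℝ) ≤ qq N L b := by exact_mod_cast qq_one N L b
    linarith
  · push Not at h
    have h2 : ⌊x⌋₊ ≤ qq N L b := le_max_right _ _
    have h3 : ((⌊x⌋₊ : ℕ) : ℝ) ≤ qq N L b := by exact_mod_cast h2
    have h4 : (1 : ℕ) ≤ ⌊x⌋₊ := Nat.le_floor (by simpa using h)
    have h5 : (1 : ℝ) ≤ ((⌊x⌋₊ : ℕ) : ℝ) := by exact_mod_cast h4
    have h6 := Nat.lt_floor_add_one x
    linarith

theorem qq_mul_le (N : ℕ) (hN : 2 ≤ N) (r : ℕ) (b b' : ℝ) (hb : 0 ≤ b) (hb' : 0 ≤ b') (hbb : b + b' ≤ 1)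
    (hr : 1 ≤ cc N * r) :
    52 * N ^ 3 * (qq N (Real.log r) b * qq N (Real.log r) b') ≤ r := by
  have hc := cc_pos N hN
  have hc1 := cc_le_one N hN
  have hr1 : (1 : ℝ) ≤ r := by
    by_contra hcon
    push Not at hcon
    have h0 : (0 : ℝ) ≤ r := Nat.cast_nonneg r
    have := mul_le_mul_of_nonneg_right hc1 h0
    linarith
  have hr0 : (0 : ℝ) < r := by linarith
  have hL : 0 ≤ Real.log r := Real.log_nonneg hr1
  set L := Real.log r with hLdef
  have hexpL : Real.exp L = r := Real.exp_log hr0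
  have h1 := qq_le_max N hN L b
  have h2 := qq_le_max N hN L b'
  have h3 : (qq N L b : ℝ) * qq N L b' ≤ cc N * r := by
    refine (mul_le_mul h1 h2 (Nat.cast_nonneg _) (le_max_of_le_left zero_le_one)).trans ?_
    have e1 : Real.exp (b * L) ≤ r := by
      rw [← hexpL]; apply Real.exp_le_exp.mpr; nlinarith
    have e2 : Real.exp (b' * L) ≤ r := by
      rw [← hexpL]; apply Real.exp_le_exp.mpr; nlinarith
    have e3 : Real.exp (b * L) * Real.exp (b' * L) ≤ r := by
      rw [← Real.exp_add, ← hexpL]; apply Real.exp_le_exp.mpr; nlinarith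
    have p1 := Real.exp_pos (b * L)
    have p2 := Real.exp_pos (b' * L)
    rcases le_total 1 (cc N * Real.exp (b * L)) with h | h <;>
      rcases le_total 1 (cc N * Real.exp (b' * L)) with h' | h'
    · rw [max_eq_right h, max_eq_right h']
      calc cc N * Real.exp (b * L) * (cc N * Real.exp (b' * L))
          = cc N * (cc N * (Real.exp (b * L) * Real.exp (b' * L))) := by ring
        _ ≤ cc N * (1 * r) := by
          apply mul_le_mul_of_nonneg_left _ hc.le
          exact mul_le_mul hc1 e3 (by positivity) zero_le_one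
        _ = cc N * r := by ring
    · rw [max_eq_right h, max_eq_left h', mul_one]
      exact mul_le_mul_of_nonneg_left e1 hc.le
    · rw [max_eq_left h, max_eq_right h', one_mul]
      exact mul_le_mul_of_nonneg_left e2 hc.le
    · rw [max_eq_left h, max_eq_left h']
      linarith
  have hN' : (0 : ℝ) < N := by
    have : 0 < N := by omega
    exact_mod_cast this
  have h4 : (52 : ℝ) * (N : ℝ) ^ 3 * ((qq N L b : ℝ) * qq N L b') ≤ r := by
    have h5 := mul_le_mul_of_nonneg_left h3 (by positivity : (0 : ℝ) ≤ 52 * (N : ℝ) ^ 3)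
    refine h5.trans (le_of_eq ?_)
    unfold cc
    field_simp
  exact_mod_cast h4

/-- one scale -/
theorem scale_bound (N : ℕ) (hN : 2 ≤ N) (Γ : PlumbingGraph n m) : ∃ K : ℝ, ∀ (β : Fin n → ℝ),
    IsPacking Γ β → ∀ r : ℕ, 1 ≤ cc N * r →
      Fintype.piFinset (fun v => blk N (qq N (Real.log r) (β v))) ⊆
        Fintype.piFinset (fun _ : Fin n => labels N r) ∧
      Real.exp (K + Real.log r * growth N Γ (weight N Γ β)) ≤
        ∑ x ∈ Fintype.piFinset (fun v => blk N (qq N (Real.log r) (β v))), term N r Γ x := by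
  classical
  have hN0 : 0 < N := by omega
  have hN' : (2 : ℝ) ≤ N := by exact_mod_cast hN
  have hNp : (0 : ℝ) < N := by linarith
  have hpi := Real.pi_pos
  set D : ℕ := N * (N - 1) / 2 with hD
  have hD2 := two_D N (by omega)
  rw [← hD] at hD2
  have hDe : (D : ℝ) = N * ((N : ℝ) - 1) / 2 := by linarith
  have hc := cc_pos N hN
  have hc1 := cc_le_one N hN
  set P : ℝ := ((pos Γ).card : ℝ) with hP
  set G : ℝ := ∑ v, ((Γ.genus v : ℝ) - 1) with hG
  set k1 : ℝ := D * (|Real.log (4 * Real.pi * N)| + |Real.log 4 + Real.log (cc N / 2)|) with hk1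
  set K2 : ℝ := Real.log N * (P + G) + P * (2 * (Real.log (1 / 2) - D * Real.log (2 * Real.pi * N))) +
    n * (((N : ℝ) - 1) * Real.log (cc N / 2)) - ∑ v, |2 - 2 * (Γ.genus v : ℝ)| * k1 with hK2
  refine ⟨K2, fun β hβ r hr => ?_⟩
  have hr1 : (1 : ℝ) ≤ r := by
    by_contra hcon
    push Not at hcon
    have h0 : (0 : ℝ) ≤ r := Nat.cast_nonneg r
    have := mul_le_mul_of_nonneg_right hc1 h0
    linarith
  have hr0 : (0 : ℝ) < r := by linarith
  have hrn : 0 < r := by exact_mod_cast hr0
  have hL : 0 ≤ Real.log r := Real.log_nonneg hr1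
  set L := Real.log r with hLdef
  set lk := Real.log (kap N r) with hlk
  have hlk2 : -(2 * lk) = Real.log N + ((N : ℝ) - 1) * L := log_kap N r hN0 hrn
  set q : Fin n → ℕ := fun v => qq N L (β v) with hq
  have hq1 : ∀ v, 1 ≤ q v := fun v => qq_one _ _ _
  have hqr : ∀ v, 52 * N ^ 3 * q v ≤ r := by
    intro v
    have h1 := qq_mul_le N hN r (β v) 0 (hβ.1 v).1 le_rfl (by linarith [(hβ.1 v).2]) hr
    have h2 : 1 ≤ qq N (Real.log r) 0 := qq_one _ _ _
    refine le_trans ?_ h1
    apply Nat.mul_le_mul_left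
    calc q v = q v * 1 := (mul_one _).symm
      _ ≤ _ := Nat.mul_le_mul_left _ h2
  have hN3 : N ≤ N ^ 3 := Nat.le_self_pow (by norm_num) N
  have hq4 : ∀ v, 4 * N * q v ≤ r := by
    intro v
    refine le_trans ?_ (hqr v)
    apply Nat.mul_le_mul_right
    omega
  have hq2 : ∀ v, 2 * N * q v < r := by
    intro v
    have h1 : 0 < N * q v := Nat.mul_pos hN0 (hq1 v)
    have h2 := hq4 v
    have e1 : 4 * N * q v = 4 * (N * q v) := by ring
    have e2 : 2 * N * q v = 2 * (N * q v) := by ring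
    rw [e1] at h2
    rw [e2]
    omega
  have hsub : Fintype.piFinset (fun v => blk N (q v)) ⊆ Fintype.piFinset (fun _ : Fin n => labels N r) := by
    intro x hx
    rw [Fintype.mem_piFinset] at hx ⊢
    exact fun v => blk_subset (hq2 v) (hx v)
  refine ⟨hsub, ?_⟩
  -- the value of log q
  have hqlog : ∀ v, β v * L + Real.log (cc N / 2) ≤ Real.log (q v) ∧ Real.log (q v) ≤ β v * L := by
    intro v
    have hqp : (0 : ℝ) < q v := by exact_mod_cast hq1 v
    constructor
    · have h1 := Real.log_le_log (by positivity) (qq_ge N L (β v))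
      rw [Real.log_mul (by positivity) (Real.exp_pos _).ne', Real.log_exp] at h1
      linarith
    · have h1 := Real.log_le_log hqp (qq_le_exp N hN L (β v) hL (hβ.1 v).1)
      rwa [Real.log_exp] at h1
  have hterm : ∀ x ∈ Fintype.piFinset (fun v => blk N (q v)),
      Real.exp (∑ v, ((2 - 2 * (Γ.genus v : ℝ)) * (lk + D * (β v - 1) * L) - |2 - 2 * (Γ.genus v : ℝ)| * k1)
        + P * (-(2 * lk) + 2 * (Real.log (1 / 2) + D * (L - Real.log (2 * Real.pi * N))))) ≤
      term N r Γ x := by
    intro x hx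
    have hxl := Fintype.mem_piFinset.mp (hsub hx)
    rw [Fintype.mem_piFinset] at hx
    unfold term
    rw [Real.exp_add]
    apply mul_le_mul _ _ (Real.exp_pos _).le (Real.exp_pos _).le
    · apply Real.exp_le_exp.mpr
      refine Finset.sum_le_sum fun v _ => ?_
      have hVp := V_pos (hxl v)
      have hqp : (0 : ℝ) < q v := by exact_mod_cast hq1 v
      have h1 := Real.log_le_log hVp (V_blk_le (r := r) (hx v))
      have h2 := Real.log_le_log (by positivity) (V_blk_ge hrn (hq4 v) (hx v))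
      rw [← hD, Real.log_pow, Real.log_div (by positivity) hr0.ne',
        Real.log_mul (by positivity) hqp.ne'] at h1
      rw [← hD, Real.log_pow, Real.log_div (by positivity) hr0.ne',
        Real.log_mul (by norm_num) hqp.ne'] at h2
      rw [← hLdef] at h1 h2
      have hD0 : (0 : ℝ) ≤ D := Nat.cast_nonneg _
      have h3 : |Real.log (V r (x v)) - D * (β v - 1) * L| ≤ k1 := by
        rw [abs_le]
        have a1 := neg_abs_le (Real.log 4 + Real.log (cc N / 2))
        have a2 := le_abs_self (Real.log (4 * Real.pi * N))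
        have a3 := abs_nonneg (Real.log (4 * Real.pi * N))
        have a4 := abs_nonneg (Real.log 4 + Real.log (cc N / 2))
        obtain ⟨b1, b2⟩ := hqlog v
        constructor
        · have h5 : D * ((Real.log 4 + Real.log (cc N / 2)) + (β v - 1) * L) ≤ Real.log (V r (x v)) := by
            refine le_trans ?_ h2
            apply mul_le_mul_of_nonneg_left _ hD0
            linarith
          have h6 : (D : ℝ) * (-(|Real.log (4 * Real.pi * N)| + |Real.log 4 + Real.log (cc N / 2)|)) ≤
              D * (Real.log 4 + Real.log (cc N / 2)) := by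
            apply mul_le_mul_of_nonneg_left _ hD0
            linarith
          rw [hk1]
          linarith
        · have h5 : Real.log (V r (x v)) ≤ D * (Real.log (4 * Real.pi * N) + (β v - 1) * L) := by
            refine le_trans h1 ?_
            apply mul_le_mul_of_nonneg_left _ hD0
            linarith
          have h6 : (D : ℝ) * Real.log (4 * Real.pi * N) ≤
              D * (|Real.log (4 * Real.pi * N)| + |Real.log 4 + Real.log (cc N / 2)|) := by
            apply mul_le_mul_of_nonneg_left _ hD0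
            linarith
          rw [hk1]
          linarith
      have h4 : -(|2 - 2 * (Γ.genus v : ℝ)| * k1) ≤
          (2 - 2 * (Γ.genus v : ℝ)) * (Real.log (V r (x v)) - D * (β v - 1) * L) := by
        have h5 := neg_abs_le ((2 - 2 * (Γ.genus v : ℝ)) * (Real.log (V r (x v)) - D * (β v - 1) * L))
        rw [abs_mul] at h5
        have h6 := mul_le_mul_of_nonneg_left h3 (abs_nonneg (2 - 2 * (Γ.genus v : ℝ)))
        linarith
      linarith
    · have h1 : ∀ e ∈ pos Γ, Real.exp (-(2 * lk) + 2 * (Real.log (1 / 2) + D * (L - Real.log (2 * Real.pi * N)))) ≤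
          Real.exp (-(2 * lk)) * F r (x (Γ.src e)) (x (Γ.tgt e)) ^ 2 := by
        intro e _
        rw [Real.exp_add]
        apply mul_le_mul_of_nonneg_left _ (Real.exp_pos _).le
        have h2 := F_ge hN0 hrn (hxl (Γ.src e)) (hxl (Γ.tgt e)) (2 * N * q (Γ.src e)) (2 * N * q (Γ.tgt e))
          (blk_le (hx _)) (blk_le (hx _)) (by
            have h3 := qq_mul_le N hN r (β (Γ.src e)) (β (Γ.tgt e)) (hβ.1 _).1 (hβ.1 _).1 (hβ.2 e) hr
            refine le_trans (le_of_eq ?_) h3
            simp only [hq]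
            ring)
        have h4 : Real.exp (Real.log (1 / 2) + D * (L - Real.log (2 * Real.pi * N))) =
            1 / 2 * (r / (2 * Real.pi * N) : ℝ) ^ D := by
          rw [Real.exp_add, Real.exp_log (by norm_num), hLdef, ← Real.log_div hr0.ne' (by positivity),
            ← Real.log_pow, Real.exp_log (by positivity)]
        rw [mul_comm (2 : ℝ), Real.exp_mul, Real.rpow_two, h4]
        exact pow_le_pow_left₀ (by positivity) h2 2
      have h2 := Finset.prod_le_prod (s := pos Γ) (fun e _ => (Real.exp_pos _).le) h1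
      rw [Finset.prod_const, ← Real.exp_nat_mul] at h2
      exact h2
  -- the number of the terms
  have hcard : Real.exp (((N : ℝ) - 1) * ∑ v, (β v * L + Real.log (cc N / 2))) ≤
      ((Fintype.piFinset (fun v => blk N (q v))).card : ℝ) := by
    rw [Fintype.card_piFinset, Nat.cast_prod, Finset.mul_sum, Real.exp_sum]
    refine Finset.prod_le_prod (fun v _ => (Real.exp_pos _).le) fun v _ => ?_
    have hqp : (0 : ℝ) < q v := by exact_mod_cast hq1 v
    rw [blk_card N _ hN0, Nat.cast_pow]
    have h1 : ((q v : ℝ)) ^ (N - 1) = Real.exp (((N : ℝ) - 1) * Real.log (q v)) := by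
      rw [← Real.exp_log (pow_pos hqp (N - 1)), Real.log_pow, Nat.cast_sub (by omega), Nat.cast_one]
    rw [h1]
    apply Real.exp_le_exp.mpr
    exact mul_le_mul_of_nonneg_left (hqlog v).1 (by linarith)
  calc Real.exp (K2 + L * growth N Γ (weight N Γ β))
      = Real.exp (((N : ℝ) - 1) * ∑ v, (β v * L + Real.log (cc N / 2))) *
        Real.exp (∑ v, ((2 - 2 * (Γ.genus v : ℝ)) * (lk + D * (β v - 1) * L) - |2 - 2 * (Γ.genus v : ℝ)| * k1)
        + P * (-(2 * lk) + 2 * (Real.log (1 / 2) + D * (L - Real.log (2 * Real.pi * N))))) := by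
        rw [← Real.exp_add]
        congr 1
        have e1 : ∑ v, (β v * L + Real.log (cc N / 2)) = L * ∑ v, β v + n * Real.log (cc N / 2) := by
          rw [Finset.sum_add_distrib, Finset.sum_const, Finset.card_univ, Fintype.card_fin, nsmul_eq_mul,
            Finset.mul_sum]
          congr 1
          exact Finset.sum_congr rfl fun v _ => mul_comm _ _
        have e2 : ∑ v, ((2 - 2 * (Γ.genus v : ℝ)) * (lk + D * (β v - 1) * L) - |2 - 2 * (Γ.genus v : ℝ)| * k1) =
            -(2 * lk) * G + 2 * D * L * G - 2 * D * L * ∑ v, ((Γ.genus v : ℝ) - 1) * β v -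
              ∑ v, |2 - 2 * (Γ.genus v : ℝ)| * k1 := by
          rw [hG, Finset.mul_sum, Finset.mul_sum, Finset.mul_sum, ← Finset.sum_add_distrib,
            ← Finset.sum_sub_distrib, ← Finset.sum_sub_distrib]
          refine Finset.sum_congr rfl fun v _ => ?_
          ring
        have e3 : weight N Γ β = ∑ v, β v - N * ∑ v, ((Γ.genus v : ℝ) - 1) * β v := by
          unfold weight
          rw [Finset.mul_sum, ← Finset.sum_sub_distrib]
          refine Finset.sum_congr rfl fun v _ => ?_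
          ring
        rw [e1, e2, hlk2]
        unfold growth
        rw [← hP, ← hG, e3, hK2, hDe]
        ring
    _ ≤ ((Fintype.piFinset (fun v => blk N (q v))).card : ℝ) *
        Real.exp (∑ v, ((2 - 2 * (Γ.genus v : ℝ)) * (lk + D * (β v - 1) * L) - |2 - 2 * (Γ.genus v : ℝ)| * k1)
        + P * (-(2 * lk) + 2 * (Real.log (1 / 2) + D * (L - Real.log (2 * Real.pi * N))))) :=
        mul_le_mul_of_nonneg_right hcard (Real.exp_pos _).le
    _ ≤ _ := by
        rw [← nsmul_eq_mul]
        exact Finset.card_nsmul_le_sum _ _ _ hterm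

theorem packing_mix (Γ : PlumbingGraph n m) (α α' : Fin n → ℝ) (hα : IsPacking Γ α) (hα' : IsPacking Γ α')
    (t : ℝ) (h0 : 0 ≤ t) (h1 : t ≤ 1) : IsPacking Γ (fun v => (1 - t) * α v + t * α' v) := by
  constructor
  · intro v
    obtain ⟨a1, a2⟩ := hα.1 v
    obtain ⟨b1, b2⟩ := hα'.1 v
    show 0 ≤ (1 - t) * α v + t * α' v ∧ (1 - t) * α v + t * α' v ≤ 1
    constructor <;> nlinarith
  · intro e
    have a := hα.2 e
    have b := hα'.2 e
    show ((1 - t) * α (Γ.src e) + t * α' (Γ.src e)) + ((1 - t) * α (Γ.tgt e) + t * α' (Γ.tgt e)) ≤ 1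
    nlinarith

theorem weight_mix (N : ℕ) (Γ : PlumbingGraph n m) (α α' : Fin n → ℝ)
    (hw : weight N Γ α' = weight N Γ α) (t : ℝ) :
    weight N Γ (fun v => (1 - t) * α v + t * α' v) = weight N Γ α := by
  have h1 : weight N Γ (fun v => (1 - t) * α v + t * α' v) =
      (1 - t) * weight N Γ α + t * weight N Γ α' := by
    unfold weight
    rw [Finset.mul_sum, Finset.mul_sum, ← Finset.sum_add_distrib]
    refine Finset.sum_congr rfl fun v _ => ?_
    ring
  rw [h1, hw]
  ring

theorem sum_term_ge (N : ℕ) (hN : 2 ≤ N) (Γ : PlumbingGraph n m) (α α' : Fin n → ℝ)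
    (hα : IsPacking Γ α) (hα' : IsPacking Γ α') (hw : weight N Γ α' = weight N Γ α) (v0 : Fin n)
    (hlt : α v0 < α' v0) : ∃ (c : ℝ) (r0 : ℕ), 0 < c ∧ ∀ r : ℕ, r0 ≤ r →
      c * (Real.exp (Real.log r * growth N Γ (weight N Γ α)) * Real.log r) ≤
        ∑ x ∈ Fintype.piFinset (fun _ : Fin n => labels N r), term N r Γ x := by
  classical
  obtain ⟨K, hK⟩ := scale_bound N hN Γ
  have hc := cc_pos N hN
  have hc1 := cc_le_one N hN
  set δ : ℝ := α' v0 - α v0 with hδ
  have hδ0 : 0 < δ := by linarith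
  have hl4 : 0 < Real.log 4 := Real.log_pos (by norm_num)
  -- r0
  obtain ⟨ra, hra⟩ := exists_nat_ge (1 / cc N)
  obtain ⟨rb, hrb⟩ := exists_nat_ge (Real.exp (4 * Real.log 4 / δ))
  obtain ⟨rc, hrc⟩ := exists_nat_ge (Real.exp (2 * Real.log (1 / cc N) / δ))
  refine ⟨Real.exp K * (δ / (4 * Real.log 4)), ra + rb + rc + 1, by positivity, fun r hr => ?_⟩
  have hr1 : (1 : ℝ) ≤ r := by
    have : 1 ≤ r := by omega
    exact_mod_cast this
  have hr0 : (0 : ℝ) < r := by linarith
  have hL : 0 ≤ Real.log r := Real.log_nonneg hr1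
  have hcr : 1 ≤ cc N * r := by
    have h1 : (ra : ℝ) ≤ r := by
      have : ra ≤ r := by omega
      exact_mod_cast this
    have h2 : 1 / cc N ≤ r := hra.trans h1
    rw [div_le_iff₀ hc] at h2
    linarith
  set L := Real.log r with hLdef
  have hLb : 4 * Real.log 4 / δ ≤ L := by
    have h1 : (rb : ℝ) ≤ r := by
      have : rb ≤ r := by omega
      exact_mod_cast this
    rw [hLdef, Real.le_log_iff_exp_le hr0]
    exact hrb.trans h1
  have hLc : 2 * Real.log (1 / cc N) / δ ≤ L := by
    have h1 : (rc : ℝ) ≤ r := by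
      have : rc ≤ r := by omega
      exact_mod_cast this
    rw [hLdef, Real.le_log_iff_exp_le hr0]
    exact hrc.trans h1
  have hL0 : 0 < L := lt_of_lt_of_le (by positivity) hLb
  -- the scales
  set S : ℕ := ⌊δ * L / (2 * Real.log 4)⌋₊ with hS
  have hSge : δ / (4 * Real.log 4) * L ≤ S := by
    have h1 := Nat.lt_floor_add_one (δ * L / (2 * Real.log 4))
    rw [← hS] at h1
    have h2 : 1 ≤ δ * L / (4 * Real.log 4) := by
      rw [le_div_iff₀ (by positivity)]
      rw [div_le_iff₀ hδ0] at hLb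
      linarith
    have h3 : δ * L / (2 * Real.log 4) = δ * L / (4 * Real.log 4) + δ * L / (4 * Real.log 4) := by
      field_simp
      norm_num
    have h4 : δ / (4 * Real.log 4) * L = δ * L / (4 * Real.log 4) := by ring
    rw [h4]
    linarith
  let t : ℕ → ℝ := fun s => 1 / 2 + s * Real.log 4 / (δ * L)
  have ht : ∀ s ∈ range S, 0 ≤ t s ∧ t s ≤ 1 := by
    intro s hs
    rw [mem_range] at hs
    refine ⟨by positivity, ?_⟩
    have h1 : ((s : ℝ)) ≤ S := by exact_mod_cast hs.le
    have h2 : (S : ℝ) ≤ δ * L / (2 * Real.log 4) := Nat.floor_le (by positivity)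
    have h3 : (s : ℝ) * Real.log 4 / (δ * L) ≤ 1 / 2 := by
      rw [div_le_iff₀ (by positivity)]
      have h4 : (s : ℝ) ≤ δ * L / (2 * Real.log 4) := h1.trans h2
      rw [le_div_iff₀ (by positivity)] at h4
      linarith
    show 1 / 2 + (s : ℝ) * Real.log 4 / (δ * L) ≤ 1
    linarith
  let β : ℕ → Fin n → ℝ := fun s v => (1 - t s) * α v + t s * α' v
  have hβ : ∀ s ∈ range S, IsPacking Γ (β s) := fun s hs =>
    packing_mix Γ α α' hα hα' (t s) (ht s hs).1 (ht s hs).2
  have hβw : ∀ s, weight N Γ (β s) = weight N Γ α := fun s => weight_mix N Γ α α' hw (t s)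
  let B : ℕ → Finset (Fin n → Fin N → ℕ) := fun s =>
    Fintype.piFinset (fun v => blk N (qq N L (β s v)))
  have hx : ∀ s, cc N * Real.exp (β s v0 * L) = cc N * Real.exp ((α v0 + δ / 2) * L) * 4 ^ s := by
    intro s
    rw [mul_assoc]
    congr 1
    have h1 : (4 : ℝ) ^ s = Real.exp (s * Real.log 4) := by
      rw [Real.exp_nat_mul, Real.exp_log (by norm_num)]
    rw [h1, ← Real.exp_add]
    congr 1
    show ((1 - (1 / 2 + (s : ℝ) * Real.log 4 / (δ * L))) * α v0 + (1 / 2 + (s : ℝ) * Real.log 4 / (δ * L)) * α' v0) * L = _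
    have h2 : α' v0 = α v0 + δ := by rw [hδ]; ring
    rw [h2]
    field_simp
    ring
  have hx1 : ∀ s, 1 ≤ cc N * Real.exp (β s v0 * L) := by
    intro s
    rw [hx]
    have h1 : 1 ≤ cc N * Real.exp ((α v0 + δ / 2) * L) := by
      have h2 : Real.log (1 / cc N) ≤ (α v0 + δ / 2) * L := by
        rw [div_le_iff₀ hδ0] at hLc
        have h3 : 0 ≤ α v0 * L := mul_nonneg (hα.1 v0).1 hL
        nlinarith
      have h3 := Real.exp_le_exp.mpr h2
      rw [Real.exp_log (by positivity), div_le_iff₀ hc] at h3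
      linarith
    have h2 : (1 : ℝ) ≤ 4 ^ s := one_le_pow₀ (by norm_num)
    nlinarith
  have hq2 : ∀ s s' : ℕ, s < s' → 2 * qq N L (β s v0) ≤ qq N L (β s' v0) := by
    intro s s' hss
    have h1 : ∀ s, qq N L (β s v0) = ⌊cc N * Real.exp (β s v0 * L)⌋₊ := by
      intro s
      unfold qq
      apply max_eq_right
      apply Nat.le_floor
      simpa using hx1 s
    rw [h1, h1]
    apply Nat.le_floor
    rw [Nat.cast_mul, Nat.cast_two]
    have h2 : ((⌊cc N * Real.exp (β s v0 * L)⌋₊ : ℕ) : ℝ) ≤ cc N * Real.exp (β s v0 * L) :=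
      Nat.floor_le (by positivity)
    have h3 : 2 * (cc N * Real.exp (β s v0 * L)) ≤ cc N * Real.exp (β s' v0 * L) := by
      rw [hx, hx]
      have h4 : (2 : ℝ) * 4 ^ s ≤ 4 ^ s' := by
        have h5 : (4 : ℝ) ^ (s + 1) ≤ 4 ^ s' := pow_le_pow_right₀ (by norm_num) hss
        rw [pow_succ] at h5
        have h6 : (0 : ℝ) < 4 ^ s := by positivity
        linarith
      have h5 : 0 < cc N * Real.exp ((α v0 + δ / 2) * L) := by positivity
      calc 2 * (cc N * Real.exp ((α v0 + δ / 2) * L) * 4 ^ s) =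
            cc N * Real.exp ((α v0 + δ / 2) * L) * (2 * 4 ^ s) := by ring
        _ ≤ _ := mul_le_mul_of_nonneg_left h4 h5.le
    linarith
  have hdisj : ∀ s ∈ range S, ∀ s' ∈ range S, s ≠ s' → Disjoint (B s) (B s') := by
    have key : ∀ s s' : ℕ, s < s' → Disjoint (B s) (B s') := by
      intro s s' hss
      rw [Finset.disjoint_left]
      intro x hx hx'
      simp only [B, Fintype.mem_piFinset] at hx hx'
      exact (Finset.disjoint_left.mp (blk_disjoint hN (hq2 s s' hss))) (hx v0) (hx' v0)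
    intro s _ s' _ hne
    rcases lt_or_gt_of_ne hne with h | h
    · exact key s s' h
    · exact (key s' s h).symm
  calc Real.exp K * (δ / (4 * Real.log 4)) * (Real.exp (L * growth N Γ (weight N Γ α)) * L)
      = (δ / (4 * Real.log 4) * L) * (Real.exp K * Real.exp (L * growth N Γ (weight N Γ α))) := by ring
    _ ≤ S * (Real.exp K * Real.exp (L * growth N Γ (weight N Γ α))) :=
        mul_le_mul_of_nonneg_right hSge (by positivity)
    _ = ∑ _s ∈ range S, Real.exp (K + L * growth N Γ (weight N Γ α)) := by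
        rw [Finset.sum_const, card_range, nsmul_eq_mul, Real.exp_add]
    _ ≤ ∑ s ∈ range S, ∑ x ∈ B s, term N r Γ x := by
        refine Finset.sum_le_sum fun s hs => ?_
        have h1 := (hK (β s) (hβ s hs) r hcr).2
        rw [hβw s] at h1
        exact h1
    _ = ∑ x ∈ (range S).biUnion B, term N r Γ x := by
        rw [Finset.sum_biUnion]
        intro s hs s' hs' hne
        exact hdisj s hs s' hs' hne
    _ ≤ ∑ x ∈ Fintype.piFinset (fun _ : Fin n => labels N r), term N r Γ x := by
        refine Finset.sum_le_sum_of_subset_of_nonneg ?_ fun x _ _ => term_nonneg N r Γ x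
        intro x hx
        obtain ⟨s, hs, hx⟩ := mem_biUnion.mp hx
        exact (hK (β s) (hβ s hs) r hcr).1 hx

end Pool.Agent.Y397.PG
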