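import Mathlib
import Pool.Agent.W719.AEC.NoExp
import Pool.Agent.Y397.PG.Low

/-!
# No asymptotic expansions
-/

set_option autoImplicit false

open Finset Filter Topology

namespace Pool.Agent.Y397.PG

open W719AEC

variable {n m : ℕ}

/-- The level r - N invariants of Γ for SU(N) satisfy c r^E log r ≤ |Z| ≤ C r^E (1 + log r)^B for all
large r, with constants c > 0, C and B, and for no choice of the phases ω (of absolute value 1) has the
sequence ω k * Z_k, k = r - N, an asymptotic expansion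
∑_j exp (2 π i r c_j) r^(d_j) b_j (1 + ∑_l a_{j,l} r^(-l/2)) (with real c_j, d_j and j in a finite
set). -/
def Fails (N : ℕ) (Γ : PlumbingGraph n m) (E : ℝ) : Prop :=
  (∃ (c C : ℝ) (B : ℕ), 0 < c ∧ ∀ᶠ r : ℕ in atTop,
    c * ((r : ℝ) ^ E * Real.log r) ≤ ‖Γ.Z N r‖ ∧ ‖Γ.Z N r‖ ≤ C * ((r : ℝ) ^ E * (1 + Real.log r) ^ B)) ∧
  ∀ ω : ℕ → ℂ, (∀ k, ‖ω k‖ = 1) → ¬ H524R3.HasExpansion N (fun k => ω k * Γ.Z N (k + N))

theorem fails_of_bounds (N : ℕ) (Γ : PlumbingGraph n m) (E : ℝ) (c C : ℝ) (B : ℕ) (hc : 0 < c)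
    (h : ∀ᶠ r : ℕ in atTop, c * ((r : ℝ) ^ E * Real.log r) ≤ ‖Γ.Z N r‖ ∧
      ‖Γ.Z N r‖ ≤ C * ((r : ℝ) ^ E * (1 + Real.log r) ^ B)) : Fails N Γ E := by
  refine ⟨⟨c, C, B, hc, h⟩, fun ω hω => ?_⟩
  have h2 := not_hasExpansion N E (fun n => ω (n - N) * Γ.Z N n) C B ?_ ?_
  · simpa using h2
  · filter_upwards [h] with r hr
    rw [norm_mul, hω, one_mul]
    exact hr.2
  · have h3 : Tendsto (fun r : ℕ => c * Real.log r) atTop atTop :=
      (Real.tendsto_log_atTop.comp tendsto_natCast_atTop_atTop).const_mul_atTop hc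
    refine tendsto_atTop_mono' _ ?_ h3
    filter_upwards [h, eventually_ge_atTop 1] with r hr hr1
    have hr' : (0 : ℝ) < r := by exact_mod_cast hr1
    rw [norm_mul, hω, one_mul, le_div_iff₀ (Real.rpow_pos_of_pos hr' E)]
    linarith [hr.1]

theorem main_of_dual (N : ℕ) (hN : 2 ≤ N) (Γ : PlumbingGraph n m) (h0 : ∀ v, Γ.euler v = 0)
    (hd : Doubled Γ) (α α' : Fin n → ℝ) (hα : IsOptimal N Γ α) (hα' : IsOptimal N Γ α') (hne : α ≠ α') :
    Fails N Γ (growth N Γ (weight N Γ α)) := by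
  have hN0 : 0 < N := by omega
  -- equal weights
  have hexc : ∀ β : Fin n → ℝ, IsPacking Γ β → excess Γ β = 0 := by
    intro β hβ
    unfold excess
    refine Finset.sum_eq_zero fun e _ => ?_
    exact max_eq_left (by linarith [hβ.2 e])
  have hw : weight N Γ α' = weight N Γ α := by
    apply le_antisymm
    · have := hα.2 α' hα'.1.1
      rw [hexc α' hα'.1] at this
      linarith
    · have := hα'.2 α hα.1.1
      rw [hexc α hα.1] at this
      linarith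
  -- the lower bound
  have hlow : ∃ (c : ℝ) (r0 : ℕ), 0 < c ∧ ∀ r : ℕ, r0 ≤ r →
      c * (Real.exp (Real.log r * growth N Γ (weight N Γ α)) * Real.log r) ≤
        ∑ x ∈ Fintype.piFinset (fun _ : Fin n => labels N r), term N r Γ x := by
    obtain ⟨v0, hv0⟩ : ∃ v0, α v0 ≠ α' v0 := by
      by_contra hcon
      push Not at hcon
      exact hne (funext hcon)
    rcases lt_or_gt_of_ne hv0 with h | h
    · exact sum_term_ge N hN Γ α α' hα.1 hα'.1 hw v0 h
    · have := sum_term_ge N hN Γ α' α hα'.1 hα.1 hw.symm v0 h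
      rwa [hw] at this
  obtain ⟨c, r0, hc, hlow⟩ := hlow
  -- the upper bound
  obtain ⟨ω, t, hw0, hwN, ht, hcov, hval⟩ := exists_dual N Γ α hα
  obtain ⟨C, hC, hup⟩ := sum_term_le N hN Γ ω t hw0 hwN ht hcov
  refine fails_of_bounds N Γ _ c C (n * (N - 1)) hc ?_
  filter_upwards [eventually_ge_atTop r0, eventually_ge_atTop 1] with r hr hr1
  have hr1' : (1 : ℝ) ≤ r := by exact_mod_cast hr1
  have hr' : (0 : ℝ) < r := by linarith
  have hL : 0 ≤ Real.log r := Real.log_nonneg hr1'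
  have hN' : (2 : ℝ) ≤ N := by exact_mod_cast hN
  have hZ : ‖Γ.Z N r‖ = ∑ x ∈ Fintype.piFinset (fun _ : Fin n => labels N r), term N r Γ x := by
    rw [Z_eq_sum N r hN0 hr1 Γ h0 hd, Complex.norm_real, Real.norm_eq_abs,
      abs_of_nonneg (Finset.sum_nonneg fun x _ => term_nonneg N r Γ x)]
  rw [hZ, Real.rpow_def_of_pos hr']
  refine ⟨hlow r hr, (hup r hr1).trans ?_⟩
  apply mul_le_mul_of_nonneg_left _ hC.le
  apply mul_le_mul_of_nonneg_right _ (by positivity)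
  apply Real.exp_le_exp.mpr
  apply mul_le_mul_of_nonneg_left _ hL
  unfold growth
  apply mul_le_mul_of_nonneg_left _ (by linarith)
  linarith

/-- All pieces of genus at least 1. -/
theorem main_max (Γ : PlumbingGraph n m) (h0 : ∀ v, Γ.euler v = 0)
    (hd : Doubled Γ) (hg : ∀ v, 1 ≤ Γ.genus v) (α α' : Fin n → ℝ) (hα : IsMaxPacking Γ α)
    (hα' : IsMaxPacking Γ α') (hne : α ≠ α') (N : ℕ) (hN : 2 ≤ N) :
    Fails N Γ (growth N Γ (∑ v, α v)) := by
  obtain ⟨h1, h2⟩ := optimal_of_max N hN Γ hg hd α hα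
  obtain ⟨h3, h4⟩ := optimal_of_max N hN Γ hg hd α' hα'
  rw [← h2]
  exact main_of_dual N hN Γ h0 hd α α' h1 h3 hne

/-- The indicator function. -/
noncomputable def ind (J : Finset (Fin n)) (v : Fin n) : ℝ := by
  classical
  exact if v ∈ J then 1 else 0

theorem ind_mem {J : Finset (Fin n)} {v : Fin n} (h : v ∈ J) : ind J v = 1 := by
  unfold ind; simp [h]

theorem ind_not_mem {J : Finset (Fin n)} {v : Fin n} (h : v ∉ J) : ind J v = 0 := by
  unfold ind; simp [h]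

theorem ind_cases (J : Finset (Fin n)) (v : Fin n) : (v ∈ J ∧ ind J v = 1) ∨ (v ∉ J ∧ ind J v = 0) := by
  by_cases h : v ∈ J
  · exact Or.inl ⟨h, ind_mem h⟩
  · exact Or.inr ⟨h, ind_not_mem h⟩

/-- The two sides of a bipartite graph with a fractional perfect matching. -/
theorem bip_packing (Γ : PlumbingGraph n m) (J : Finset (Fin n))
    (hJ : ∀ e, Γ.src e ∈ J ↔ Γ.tgt e ∉ J) :
    IsPacking Γ (ind J) ∧ IsPacking Γ (fun v => 1 - ind J v) ∧
      (∀ e, ind J (Γ.src e) + ind J (Γ.tgt e) = 1) := by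
  have h1 : ∀ e, ind J (Γ.src e) + ind J (Γ.tgt e) = 1 := by
    intro e
    rcases ind_cases J (Γ.src e) with ⟨h, h'⟩ | ⟨h, h'⟩ <;>
      rcases ind_cases J (Γ.tgt e) with ⟨k, k'⟩ | ⟨k, k'⟩
    · exact absurd k ((hJ e).mp h)
    · rw [h', k']; norm_num
    · rw [h', k']; norm_num
    · exact absurd ((hJ e).mpr k) h
  have h2 : ∀ v, 0 ≤ ind J v ∧ ind J v ≤ 1 := by
    intro v
    rcases ind_cases J v with ⟨_, h'⟩ | ⟨_, h'⟩ <;> rw [h'] <;> norm_num
  refine ⟨⟨h2, fun e => (h1 e).le⟩, ⟨fun v => ?_, fun e => ?_⟩, h1⟩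
  · show 0 ≤ 1 - ind J v ∧ 1 - ind J v ≤ 1
    constructor <;> linarith [(h2 v).1, (h2 v).2]
  · show (1 - ind J (Γ.src e)) + (1 - ind J (Γ.tgt e)) ≤ 1
    linarith [h1 e]

theorem sum_eq_of_load (Γ : PlumbingGraph n m) (w : Fin m → ℝ) (hw1 : ∀ v, load Γ w v = 1)
    (f : Fin n → ℝ) : ∑ v, f v = ∑ e ∈ pos Γ, w e * (f (Γ.src e) + f (Γ.tgt e)) := by
  rw [sum_ends]
  refine Finset.sum_congr rfl fun v _ => ?_
  rw [hw1, one_mul]

theorem ind_ne (hn : 0 < n) (J : Finset (Fin n)) : ind J ≠ fun v => 1 - ind J v := by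
  intro h
  have h1 := congrFun h ⟨0, hn⟩
  rcases ind_cases J ⟨0, hn⟩ with ⟨_, h'⟩ | ⟨_, h'⟩ <;> rw [h'] at h1 <;> norm_num at h1

/-- Bipartite graphs with pieces of genus 1. -/
theorem main_bip_one (hn : 0 < n) (Γ : PlumbingGraph n m) (h0 : ∀ v, Γ.euler v = 0)
    (hd : Doubled Γ) (hg : ∀ v, Γ.genus v = 1) (J : Finset (Fin n))
    (hJ : ∀ e, Γ.src e ∈ J ↔ Γ.tgt e ∉ J) (w : Fin m → ℝ) (hw0 : ∀ e, 0 ≤ w e)
    (hw1 : ∀ v, load Γ w v = 1) (N : ℕ) (hN : 2 ≤ N) :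
    Fails N Γ (((N : ℝ) ^ 2 - 1) * (pos Γ).card + ((N : ℝ) - 1) * (n / 2)) := by
  obtain ⟨hp1, hp2, hsum⟩ := bip_packing Γ J hJ
  set W := ∑ e ∈ pos Γ, w e with hW
  have hval1 : ∑ v, ind J v = W := by
    rw [sum_eq_of_load Γ w hw1]
    refine Finset.sum_congr rfl fun e _ => ?_
    rw [hsum, mul_one]
  have hn2 : (n : ℝ) = 2 * W := by
    have h1 := sum_eq_of_load Γ w hw1 (fun _ => 1)
    rw [Finset.sum_const, Finset.card_univ, Fintype.card_fin, nsmul_eq_mul, mul_one] at h1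
    rw [h1, hW, Finset.mul_sum]
    refine Finset.sum_congr rfl fun e _ => ?_
    ring
  have hval2 : ∑ v, (1 - ind J v) = W := by
    rw [Finset.sum_sub_distrib, hval1, Finset.sum_const, Finset.card_univ, Fintype.card_fin,
      nsmul_eq_mul, mul_one, hn2]
    ring
  have hmax : ∀ β : Fin n → ℝ, IsPacking Γ β → ∑ v, β v ≤ W := by
    intro β hβ
    rw [sum_eq_of_load Γ w hw1]
    refine Finset.sum_le_sum fun e _ => ?_
    have := mul_le_mul_of_nonneg_left (hβ.2 e) (hw0 e)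
    linarith
  have h1 := main_max Γ h0 hd (fun v => (hg v).ge) (ind J) (fun v => 1 - ind J v)
    ⟨hp1, fun v hv => absurd (hg v) hv, fun β hβ _ => by rw [hval1]; exact hmax β hβ⟩
    ⟨hp2, fun v hv => absurd (hg v) hv, fun β hβ _ => by rw [hval2]; exact hmax β hβ⟩
    (ind_ne hn J) N hN
  have h2 : growth N Γ (∑ v, ind J v) = ((N : ℝ) ^ 2 - 1) * (pos Γ).card + ((N : ℝ) - 1) * (n / 2) := by
    unfold growth
    have h3 : ∑ v, ((Γ.genus v : ℝ) - 1) = 0 := by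
      refine Finset.sum_eq_zero fun v _ => ?_
      rw [hg v]; norm_num
    rw [h3, hval1, hn2]
    ring
  rwa [h2] at h1

/-- Bipartite graphs with pieces of genus 0. -/
theorem main_bip_zero (hn : 0 < n) (Γ : PlumbingGraph n m) (h0 : ∀ v, Γ.euler v = 0)
    (hd : Doubled Γ) (hg : ∀ v, Γ.genus v = 0) (J : Finset (Fin n))
    (hJ : ∀ e, Γ.src e ∈ J ↔ Γ.tgt e ∉ J) (w : Fin m → ℝ) (hw0 : ∀ e, 0 ≤ w e) (hw2 : ∀ e, w e ≤ 2 / 3)
    (hw1 : ∀ v, load Γ w v = 1) (N : ℕ) (hN : 2 ≤ N) :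
    Fails N Γ (((N : ℝ) ^ 2 - 1) * ((pos Γ).card - n / 2)) := by
  have hN' : (2 : ℝ) ≤ N := by exact_mod_cast hN
  obtain ⟨hp1, hp2, hsum⟩ := bip_packing Γ J hJ
  set W := ∑ e ∈ pos Γ, w e with hW
  have hval1 : ∑ v, ind J v = W := by
    rw [sum_eq_of_load Γ w hw1]
    refine Finset.sum_congr rfl fun e _ => ?_
    rw [hsum, mul_one]
  have hn2 : (n : ℝ) = 2 * W := by
    have h1 := sum_eq_of_load Γ w hw1 (fun _ => 1)
    rw [Finset.sum_const, Finset.card_univ, Fintype.card_fin, nsmul_eq_mul, mul_one] at h1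
    rw [h1, hW, Finset.mul_sum]
    refine Finset.sum_congr rfl fun e _ => ?_
    ring
  have hval2 : ∑ v, (1 - ind J v) = W := by
    rw [Finset.sum_sub_distrib, hval1, Finset.sum_const, Finset.card_univ, Fintype.card_fin,
      nsmul_eq_mul, mul_one, hn2]
    ring
  have hwt : ∀ β : Fin n → ℝ, weight N Γ β = ((N : ℝ) + 1) * ∑ v, β v := by
    intro β
    unfold weight
    rw [Finset.mul_sum]
    refine Finset.sum_congr rfl fun v _ => ?_
    rw [hg v]
    push_cast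
    ring
  have hmax : ∀ β : Fin n → ℝ, (∀ v, 0 ≤ β v ∧ β v ≤ 1) →
      weight N Γ β - N * excess Γ β ≤ ((N : ℝ) + 1) * W := by
    intro β _
    rw [hwt, sum_eq_of_load Γ w hw1, Finset.mul_sum, hW, Finset.mul_sum]
    unfold excess
    rw [Finset.mul_sum, ← Finset.sum_sub_distrib]
    refine Finset.sum_le_sum fun e _ => ?_
    set z := β (Γ.src e) + β (Γ.tgt e) with hz
    have h1 : z - 1 ≤ max 0 (z - 1) := le_max_right _ _
    have h2 : 0 ≤ max 0 (z - 1) := le_max_left _ _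
    have h3 : ((N : ℝ) + 1) * w e ≤ N := by
      have := hw2 e
      nlinarith
    have h4 : 0 ≤ ((N : ℝ) + 1) * w e := mul_nonneg (by linarith) (hw0 e)
    have h5 := mul_le_mul_of_nonneg_left h1 h4
    have h6 := mul_le_mul_of_nonneg_right h3 h2
    have e1 : ((N : ℝ) + 1) * (w e * z) = ((N : ℝ) + 1) * w e * (z - 1) + ((N : ℝ) + 1) * w e := by ring
    rw [e1]
    linarith
  have h1 := main_of_dual N hN Γ h0 hd (ind J) (fun v => 1 - ind J v)
    ⟨hp1, fun β hβ => by rw [hwt (ind J), hval1]; exact hmax β hβ⟩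
    ⟨hp2, fun β hβ => by rw [hwt (fun v => 1 - ind J v), hval2]; exact hmax β hβ⟩
    (ind_ne hn J)
  have h2 : growth N Γ (weight N Γ (ind J)) = ((N : ℝ) ^ 2 - 1) * ((pos Γ).card - n / 2) := by
    unfold growth
    have h3 : ∑ v, ((Γ.genus v : ℝ) - 1) = - n := by
      simp only [hg]
      rw [Finset.sum_const, Finset.card_univ, Fintype.card_fin, nsmul_eq_mul]
      push_cast
      ring
    rw [h3, hwt, hval1, hn2]
    ring
  rwa [h2] at h1

end Pool.Agent.Y397.PG
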