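import Mathlib
import Pool.Agent.Y397.PG.Main

/-!
# The graphs with two vertices
-/

set_option autoImplicit false

open Finset Filter Topology

namespace Pool.Agent.Y397.PG

open W719AEC

/-- The plumbing graph with two vertices of genus 1 and Euler number 0 and 2 k edges joining them, k of
them positive and k negative. -/
def theta (k : ℕ) : PlumbingGraph 2 (2 * k) where
  genus := fun _ => 1
  euler := fun _ => 0
  src := fun _ => 0
  tgt := fun _ => 1
  positive := fun e => decide ((e : ℕ) < k)

theorem theta_doubled (k : ℕ) : Doubled (theta k) := by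
  refine ⟨Fin.revPerm, fun e => ⟨rfl, rfl, ?_⟩⟩
  have he := e.isLt
  simp only [theta, Fin.revPerm_apply, Fin.val_rev]
  by_cases h : (e : ℕ) < k
  · have h2 : ¬ (2 * k - (e + 1) < k) := by omega
    simp [h, h2]
  · have h2 : 2 * k - (e + 1) < k := by omega
    simp [h, h2]

theorem theta_card (k : ℕ) : (pos (theta k)).card = k := by
  have h1 : pos (theta k) = univ.filter fun e : Fin (2 * k) => (e : ℕ) < k := by
    unfold pos theta
    ext e
    simp
  rw [h1, Fin.card_filter_val_lt]
  omega

theorem theta_fails (k : ℕ) (hk : 1 ≤ k) (N : ℕ) (hN : 2 ≤ N) :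
    Fails N (theta k) (((N : ℝ) ^ 2 - 1) * k + ((N : ℝ) - 1)) := by
  have hk' : (0 : ℝ) < k := by exact_mod_cast hk
  have h := main_bip_one (by norm_num) (theta k) (fun _ => rfl) (theta_doubled k) (fun _ => rfl) {0}
    (by
      intro e
      show (0 : Fin 2) ∈ ({0} : Finset (Fin 2)) ↔ (1 : Fin 2) ∉ ({0} : Finset (Fin 2))
      simp) (fun _ => 1 / (k : ℝ)) (fun _ => by positivity) (by
      intro v
      unfold load
      rw [Finset.sum_const, Finset.sum_const, nsmul_eq_mul, nsmul_eq_mul]
      have hv : v = 0 ∨ v = 1 := by
        fin_cases v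
        · left; rfl
        · right; rfl
      rcases hv with rfl | rfl
      · have e1 : (pos (theta k)).filter (fun e => (theta k).src e = 0) = pos (theta k) :=
          Finset.filter_true_of_mem (fun _ _ => rfl)
        have e2 : (pos (theta k)).filter (fun e => (theta k).tgt e = 0) = ∅ :=
          Finset.filter_false_of_mem (fun _ _ => by
            show ¬ ((1 : Fin 2) = 0)
            decide)
        rw [e1, e2, theta_card]
        simp
        field_simp
      · have e1 : (pos (theta k)).filter (fun e => (theta k).src e = 1) = ∅ :=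
          Finset.filter_false_of_mem (fun _ _ => by
            show ¬ ((0 : Fin 2) = 1)
            decide)
        have e2 : (pos (theta k)).filter (fun e => (theta k).tgt e = 1) = pos (theta k) :=
          Finset.filter_true_of_mem (fun _ _ => rfl)
        rw [e1, e2, theta_card]
        simp
        field_simp) N hN
  rw [theta_card] at h
  have h2 : ((N : ℝ) ^ 2 - 1) * k + ((N : ℝ) - 1) * (((2 : ℕ) : ℝ) / 2) =
      ((N : ℝ) ^ 2 - 1) * k + ((N : ℝ) - 1) := by
    norm_num
  rwa [h2] at h

end Pool.Agent.Y397.PG
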